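import Mathlib
import Pool.Agent.V1135.Semi

/-!
# A group that is residually finite and residually soluble but not residually finite-soluble

Let `G` be a group that is residually finite-soluble, with elements `g n` in the `n`-th derived
subgroup that have the same nontrivial image in a finite quotient `T`. In the free `ℚ G`-module with
basis `a, c 0, c 1, ...` let `A` be the `ℤ G`-submodule generated by the `c n` and the
`(a - (g n - 1) c n) / n!`. The group is `A ⋊ G`. For `G` we take the principal congruence subgroup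
of level three of `SL(2, ℤ)`, and `T = SL(2, 5)`.
-/

set_option autoImplicit false
set_option linter.unusedSectionVars false

namespace Pool.Agent.Results.MP_92b5af_al.FiniteAndSoluble

open Pool.Agent.V1135
open scoped commutatorElement

/-! ### Detecting elements by homomorphisms -/

theorem finite_quot {Γ F : Type*} [Group Γ] [Group F] [Finite F] (f : Γ →* F) :
    Finite (Γ ⧸ f.ker) :=
  Finite.of_equiv _ (QuotientGroup.quotientKerEquivRange f).symm.toEquiv

theorem solvable_quot {Γ F : Type*} [Group Γ] [Group F] [Group.IsSolvable F] (f : Γ →* F) :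
    Group.IsSolvable (Γ ⧸ f.ker) :=
  Group.isSolvable_of_surjective (f := (QuotientGroup.quotientKerEquivRange f).symm.toMonoidHom)
    (QuotientGroup.quotientKerEquivRange f).symm.surjective

instance semi_solvable {Q V : Type*} [Group Q] [AddCommGroup V] [DistribMulAction Q V]
    [Group.IsSolvable Q] : Group.IsSolvable (Semi Q V) := by
  let f : Multiplicative V →* Semi Q V :=
    { toFun := fun v => Semi.inl v.toAdd
      map_one' := rfl
      map_mul' := fun a b => Semi.inl_add _ _ }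
  refine Group.isSolvable_of_ker_le_range f (Semi.proj : Semi Q V →* Q) ?_
  intro a ha
  rw [MonoidHom.mem_ker] at ha
  exact ⟨Multiplicative.ofAdd a.v, Semi.ext rfl ha.symm⟩

/-! ### The modules -/

/-- The free `ℚ Q`-module with basis indexed by `Option ℕ`. -/
abbrev FV (Q : Type*) := (Option ℕ × Q) →₀ ℚ

noncomputable instance (Q : Type*) [Group Q] : DistribMulAction Q (FV Q) where
  smul g v := Finsupp.mapDomain (fun p : Option ℕ × Q => (p.1, g * p.2)) v
  one_smul v := by
    show Finsupp.mapDomain (fun p : Option ℕ × Q => (p.1, 1 * p.2)) v = v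
    simp only [one_mul]
    exact Finsupp.mapDomain_id
  mul_smul g h v := by
    show Finsupp.mapDomain (fun p : Option ℕ × Q => (p.1, (g * h) * p.2)) v =
      Finsupp.mapDomain (fun p : Option ℕ × Q => (p.1, g * p.2))
        (Finsupp.mapDomain (fun p : Option ℕ × Q => (p.1, h * p.2)) v)
    rw [← Finsupp.mapDomain_comp]
    congr 1
    funext p
    simp [mul_assoc]
  smul_zero g := Finsupp.mapDomain_zero
  smul_add g v w := Finsupp.mapDomain_add

theorem smul_def {Q : Type*} [Group Q] (g : Q) (v : FV Q) :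
    g • v = Finsupp.mapDomain (fun p : Option ℕ × Q => (p.1, g * p.2)) v := rfl

/-- Basis vectors with coefficients. -/
noncomputable def sg {Q : Type*} (i : Option ℕ) (h : Q) (q : ℚ) : FV Q := Finsupp.single (i, h) q

theorem smul_sg {Q : Type*} [Group Q] (g : Q) (i : Option ℕ) (h : Q) (q : ℚ) :
    g • sg i h q = sg i (g * h) q := Finsupp.mapDomain_single

/-- Functoriality of `FV`. -/
noncomputable def FVmap {G Q : Type*} [Group G] [Group Q] (π : G →* Q) : FV G →+ FV Q where
  toFun v := Finsupp.mapDomain (fun p : Option ℕ × G => (p.1, π p.2)) v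
  map_zero' := Finsupp.mapDomain_zero
  map_add' _ _ := Finsupp.mapDomain_add

theorem FVmap_smul {G Q : Type*} [Group G] [Group Q] (π : G →* Q) (g : G) (v : FV G) :
    FVmap π (g • v) = π g • FVmap π v := by
  show Finsupp.mapDomain _ (Finsupp.mapDomain _ v) = Finsupp.mapDomain _ (Finsupp.mapDomain _ v)
  rw [← Finsupp.mapDomain_comp, ← Finsupp.mapDomain_comp]
  congr 1
  funext p
  simp

/-- The homomorphism of split extensions induced by `π`. -/
noncomputable def semiMap {G Q : Type*} [Group G] [Group Q] (π : G →* Q) :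
    Semi G (FV G) →* Semi Q (FV Q) where
  toFun a := ⟨FVmap π a.v, π a.q⟩
  map_one' := by ext <;> simp
  map_mul' a b := by ext <;> simp [FVmap_smul]

/-! ### Evaluation in finite permutation modules -/

section psi

variable {G : Type*} [Group G] {Ω : Type*} [Group Ω] (θ : G →* Ω)

/-- The homomorphism from the free module to functions on `Ω` that sends the `i`-th basis element
to `w i`. -/
noncomputable def psi (w : Option ℕ → Ω → ℚ) (v : FV G) (ω : Ω) : ℚ :=
  Finsupp.sum v fun p q => q * w p.1 ((θ p.2)⁻¹ * ω)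

theorem psi_add (w : Option ℕ → Ω → ℚ) (v v' : FV G) (ω : Ω) :
    psi θ w (v + v') ω = psi θ w v ω + psi θ w v' ω :=
  Finsupp.sum_add_index' (fun _ => zero_mul _) (fun _ _ _ => add_mul _ _ _)

theorem psi_zero (w : Option ℕ → Ω → ℚ) (ω : Ω) : psi θ w (0 : FV G) ω = 0 :=
  Finsupp.sum_zero_index

theorem psi_neg (w : Option ℕ → Ω → ℚ) (v : FV G) (ω : Ω) :
    psi θ w (-v) ω = - psi θ w v ω := by
  have := psi_add θ w v (-v) ω
  rw [add_neg_cancel, psi_zero] at this
  linarith

theorem psi_sub (w : Option ℕ → Ω → ℚ) (v v' : FV G) (ω : Ω) :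
    psi θ w (v - v') ω = psi θ w v ω - psi θ w v' ω := by
  rw [sub_eq_add_neg, psi_add, psi_neg, sub_eq_add_neg]

theorem psi_qsmul (w : Option ℕ → Ω → ℚ) (c : ℚ) (v : FV G) (ω : Ω) :
    psi θ w (c • v) ω = c * psi θ w v ω := by
  unfold psi
  rw [Finsupp.sum_smul_index' (fun _ => zero_mul _), Finsupp.mul_sum]
  refine Finsupp.sum_congr fun p _ => ?_
  simp [mul_assoc]

theorem psi_smul (w : Option ℕ → Ω → ℚ) (g : G) (v : FV G) (ω : Ω) :
    psi θ w (g • v) ω = psi θ w v ((θ g)⁻¹ * ω) := by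
  unfold psi
  rw [smul_def, Finsupp.sum_mapDomain_index (fun _ => zero_mul _) (fun _ _ _ => add_mul _ _ _)]
  refine Finsupp.sum_congr fun p _ => ?_
  simp only [map_mul, mul_inv_rev, mul_assoc]

theorem psi_sg (w : Option ℕ → Ω → ℚ) (i : Option ℕ) (h : G) (q : ℚ) (ω : Ω) :
    psi θ w (sg i h q) ω = q * w i ((θ h)⁻¹ * ω) :=
  Finsupp.sum_single_index (zero_mul _)

end psi

/-- Functions on the group `Ω`, with `Ω` acting by translation. -/
abbrev Fn (Ω B : Type*) := Ω → B

instance (Ω B : Type*) [Group Ω] [AddCommGroup B] : DistribMulAction Ω (Fn Ω B) where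
  smul σ f := fun ω => f (σ⁻¹ * ω)
  one_smul f := by
    funext ω
    show f (1⁻¹ * ω) = f ω
    simp
  mul_smul σ τ f := by
    funext ω
    show f ((σ * τ)⁻¹ * ω) = f (τ⁻¹ * (σ⁻¹ * ω))
    rw [mul_inv_rev, mul_assoc]
  smul_zero σ := rfl
  smul_add σ f g := rfl

/-! ### The module `A` and the group -/

section main

variable {G : Type} [Group G] (g : ℕ → G)

/-- The basis element `a`. -/
noncomputable def va : FV G := sg none 1 1

/-- The basis elements `c n`. -/
noncomputable def vc (n : ℕ) : FV G := sg (some n) 1 1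

/-- The elements `(a - (g n - 1) c n) / n!`. -/
noncomputable def vr (n : ℕ) : FV G := ((n.factorial : ℚ)⁻¹) • (va - (g n • vc n - vc n))

/-- The generators of `A`. -/
def gens : Set (FV G) := {v | ∃ (h : G) (n : ℕ), v = h • vc n ∨ v = h • vr g n}

/-- The submodule `A`. -/
noncomputable def A : AddSubgroup (FV G) := AddSubgroup.closure (gens g)

theorem A_smul (h : G) {v : FV G} (hv : v ∈ A g) : h • v ∈ A g := by
  refine AddSubgroup.closure_induction (p := fun v _ => h • v ∈ A g) ?_ ?_ ?_ ?_ hv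
  · rintro _ ⟨k, n, rfl | rfl⟩
    · exact AddSubgroup.subset_closure ⟨h * k, n, Or.inl (mul_smul _ _ _).symm⟩
    · exact AddSubgroup.subset_closure ⟨h * k, n, Or.inr (mul_smul _ _ _).symm⟩
  · rw [smul_zero]; exact zero_mem _
  · intro v w _ _ hv hw
    rw [smul_add]; exact add_mem hv hw
  · intro v _ hv
    rw [smul_neg]; exact neg_mem hv

/-- The group `A ⋊ G`. -/
noncomputable def Gam : Subgroup (Semi G (FV G)) where
  carrier := {γ | γ.v ∈ A g}
  one_mem' := by
    show (0 : FV G) ∈ A g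
    exact zero_mem _
  mul_mem' {a b} ha hb := by
    show a.v + a.q • b.v ∈ A g
    exact add_mem ha (A_smul g _ hb)
  inv_mem' {a} ha := by
    show -(a.q⁻¹ • a.v) ∈ A g
    exact neg_mem (A_smul g _ ha)

theorem vc_mem (n : ℕ) : vc n ∈ A g :=
  AddSubgroup.subset_closure ⟨1, n, Or.inl (one_smul _ _).symm⟩

theorem vr_mem (n : ℕ) : vr g n ∈ A g :=
  AddSubgroup.subset_closure ⟨1, n, Or.inr (one_smul _ _).symm⟩

theorem va_eq (n : ℕ) : va = n.factorial • vr g n + (g n • vc n - vc n) := by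
  have h : (n.factorial : ℚ) ≠ 0 := by exact_mod_cast n.factorial_ne_zero
  rw [vr, ← Nat.cast_smul_eq_nsmul ℚ, smul_smul, mul_inv_cancel₀ h, one_smul]
  abel

theorem va_mem : va ∈ A g := by
  rw [va_eq g 0]
  exact add_mem (nsmul_mem (vr_mem g 0) _) (sub_mem (A_smul g _ (vc_mem g 0)) (vc_mem g 0))

/-- The central element of the argument. -/
noncomputable def z : Gam g := ⟨Semi.inl va, va_mem g⟩

theorem z_ne_one : z g ≠ 1 := by
  intro h
  have h1 : (va : FV G) = 0 := congrArg (fun x : Gam g => (x : Semi G (FV G)).v) h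
  have h2 : (va : FV G) (none, 1) = 1 := by
    simp [va, sg]
  rw [h1] at h2
  simp at h2

/-- The complement. -/
noncomputable def inrG : G →* Gam g where
  toFun h := ⟨Semi.inr h, by show (0 : FV G) ∈ A g; exact zero_mem _⟩
  map_one' := by apply Subtype.ext; simp
  map_mul' a b := by apply Subtype.ext; simp

theorem z_mem (hg : ∀ n, g n ∈ derivedSeries G n) (N : Subgroup (Gam g)) [N.Normal]
    [Finite (Gam g ⧸ N)] [Group.IsSolvable (Gam g ⧸ N)] : z g ∈ N := by
  obtain ⟨d, hd⟩ := (Group.isSolvable_def (Gam g ⧸ N)).1 inferInstance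
  set M := Nat.card (Gam g ⧸ N) with hM
  have hMpos : 0 < M := Nat.card_pos
  set n := M + d with hn
  let r : Gam g := ⟨Semi.inl (vr g n), vr_mem g n⟩
  let c : Gam g := ⟨Semi.inl (vc n), vc_mem g n⟩
  have hz : z g = r ^ n.factorial * ⁅inrG g (g n), c⁆ := by
    apply Subtype.ext
    rw [commutatorElement_def]
    show Semi.inl va = (Semi.inl (vr g n)) ^ n.factorial * (Semi.inr (g n) * Semi.inl (vc n) *
      (Semi.inr (g n))⁻¹ * (Semi.inl (vc n))⁻¹)
    rw [← Semi.inl_nsmul]
    refine Semi.ext ?_ ?_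
    · rw [va_eq g n]
      simp [sub_eq_add_neg]
    · simp
  have h1 : (QuotientGroup.mk' N r) ^ n.factorial = 1 := by
    obtain ⟨k, hk⟩ := Nat.dvd_factorial hMpos (show M ≤ n by omega)
    rw [hk, pow_mul, hM, pow_card_eq_one', one_pow]
  have h2 : QuotientGroup.mk' N (inrG g (g n)) = 1 := by
    have h3 : ((QuotientGroup.mk' N).comp (inrG g)) (g n) ∈ derivedSeries (Gam g ⧸ N) n :=
      map_derivedSeries_le_derivedSeries ((QuotientGroup.mk' N).comp (inrG g)) n
        ⟨g n, hg n, rfl⟩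
    have h4 : derivedSeries (Gam g ⧸ N) n ≤ ⊥ := by
      rw [← hd]
      exact derivedSeries_antitone _ (by omega)
    exact Subgroup.mem_bot.1 (h4 h3)
  rw [← QuotientGroup.eq_one_iff]
  show QuotientGroup.mk' N (z g) = 1
  rw [hz, map_mul, map_pow, h1, map_commutatorElement, h2, commutatorElement_one_left, one_mul]

/-- The homomorphism to a finite group determined by `w`, when `D` times the values on `A` are
integers. -/
noncomputable def Phi {Ω : Type} [Group Ω] (θ : G →* Ω) (w : Option ℕ → Ω → ℚ) (D : ℚ)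
    (hD : ∀ v ∈ A g, ∀ ω, ∃ m : ℤ, D * psi θ w v ω = m) (M : ℕ) :
    Gam g →* Semi Ω (Fn Ω (ZMod M)) where
  toFun γ := ⟨fun ω => ((⌊D * psi θ w γ.1.v ω⌋ : ℤ) : ZMod M), θ γ.1.q⟩
  map_one' := by
    refine Semi.ext ?_ ?_
    · funext ω
      show ((⌊D * psi θ w 0 ω⌋ : ℤ) : ZMod M) = 0
      rw [psi_zero]; simp
    · exact map_one θ
  map_mul' γ δ := by
    refine Semi.ext ?_ ?_
    · funext ω
      show ((⌊D * psi θ w (γ.1.v + γ.1.q • δ.1.v) ω⌋ : ℤ) : ZMod M) =
        ((⌊D * psi θ w γ.1.v ω⌋ : ℤ) : ZMod M) +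
          ((⌊D * psi θ w δ.1.v ((θ γ.1.q)⁻¹ * ω)⌋ : ℤ) : ZMod M)
      obtain ⟨m1, h1⟩ := hD γ.1.v γ.2 ω
      obtain ⟨m2, h2⟩ := hD δ.1.v δ.2 ((θ γ.1.q)⁻¹ * ω)
      rw [psi_add, psi_smul, mul_add, h1, h2, ← Int.cast_add, Int.floor_intCast,
        Int.floor_intCast, Int.floor_intCast, Int.cast_add]
    · exact map_mul θ _ _

theorem detect {Ω : Type} [Group Ω] [Finite Ω] (θ : G →* Ω) (w : Option ℕ → Ω → ℚ) (D : ℚ)
    (hD0 : D ≠ 0) (hD : ∀ v ∈ A g, ∀ ω, ∃ m : ℤ, D * psi θ w v ω = m)
    (v : FV G) (hv : v ∈ A g) (ω : Ω) (hne : psi θ w v ω ≠ 0) (γ : Gam g) (hγ : γ.1.v = v) :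
    ∃ (F : Type) (_ : Group F) (_ : Finite F) (f : Gam g →* F), f γ ≠ 1 := by
  obtain ⟨m, hm⟩ := hD v hv ω
  have hm0 : m ≠ 0 := by
    rintro rfl
    simp only [Int.cast_zero, mul_eq_zero] at hm
    exact hm.elim hD0 hne
  have hM : NeZero (m.natAbs + 1) := ⟨by omega⟩
  refine ⟨Semi Ω (Fn Ω (ZMod (m.natAbs + 1))), inferInstance, inferInstance,
    Phi g θ w D hD (m.natAbs + 1), ?_⟩
  intro h
  have h1 : ((⌊D * psi θ w γ.1.v ω⌋ : ℤ) : ZMod (m.natAbs + 1)) = 0 :=
    congrFun (congrArg Semi.v h) ω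
  rw [hγ, hm, Int.floor_intCast, ZMod.intCast_zmod_eq_zero_iff_dvd] at h1
  have h2 := Int.natAbs_dvd_natAbs.2 h1
  have h3 : (((m.natAbs + 1 : ℕ) : ℤ)).natAbs = m.natAbs + 1 := rfl
  rw [h3] at h2
  have := Nat.le_of_dvd (by omega) h2
  omega

theorem int_of_gens {Ω : Type} [Group Ω] (θ : G →* Ω) (w : Option ℕ → Ω → ℚ) (D : ℚ)
    (h1 : ∀ n ω, ∃ m : ℤ, D * w (some n) ω = m)
    (h2 : ∀ n ω, ∃ m : ℤ, D * ((n.factorial : ℚ)⁻¹ *
      (w none ω - (w (some n) ((θ (g n))⁻¹ * ω) - w (some n) ω))) = m) :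
    ∀ v ∈ A g, ∀ ω, ∃ m : ℤ, D * psi θ w v ω = m := by
  intro v hv
  refine AddSubgroup.closure_induction (p := fun v _ => ∀ ω, ∃ m : ℤ, D * psi θ w v ω = m)
    ?_ ?_ ?_ ?_ hv
  · rintro _ ⟨k, n, rfl | rfl⟩ ω
    · rw [psi_smul, vc, psi_sg]
      simpa using h1 n ((θ k)⁻¹ * ω)
    · rw [psi_smul, vr, psi_qsmul, psi_sub, psi_sub, psi_smul, va, vc, psi_sg, psi_sg, psi_sg]
      simpa using h2 n ((θ k)⁻¹ * ω)
  · intro ω
    exact ⟨0, by rw [psi_zero]; simp⟩
  · intro v w' _ _ hv hw ω
    obtain ⟨m1, e1⟩ := hv ω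
    obtain ⟨m2, e2⟩ := hw ω
    exact ⟨m1 + m2, by rw [psi_add, mul_add, e1, e2]; push_cast; ring⟩
  · intro v _ hv ω
    obtain ⟨m1, e1⟩ := hv ω
    exact ⟨-m1, by rw [psi_neg, mul_neg, e1]; push_cast; ring⟩

variable (N : ℕ → Subgroup G) [∀ k, (N k).Normal]

theorem exists_sep (hanti : Antitone N) (hsep : ∀ h : G, h ≠ 1 → ∃ k, h ∉ N k) (S : Finset G) :
    ∃ k, Set.InjOn (QuotientGroup.mk' (N k)) (S : Set G) := by
  classical
  have key : ∀ P : Finset G, (∀ h ∈ P, h ≠ 1) → ∃ k, ∀ h ∈ P, h ∉ N k := by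
    intro P
    induction P using Finset.induction_on with
    | empty => intro _; exact ⟨0, by simp⟩
    | insert a P ha ih =>
      intro hP
      obtain ⟨k1, hk1⟩ := ih fun h hh => hP h (Finset.mem_insert_of_mem hh)
      obtain ⟨k2, hk2⟩ := hsep a (hP a (Finset.mem_insert_self _ _))
      refine ⟨max k1 k2, ?_⟩
      intro h hh hmem
      rcases Finset.mem_insert.1 hh with rfl | hh
      · exact hk2 (hanti (le_max_right _ _) hmem)
      · exact hk1 h hh (hanti (le_max_left _ _) hmem)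
  obtain ⟨k, hk⟩ := key (((S ×ˢ S).image fun p => p.1⁻¹ * p.2).filter (· ≠ 1))
    (by simp)
  refine ⟨k, ?_⟩
  intro x hx y hy hxy
  by_contra hne
  have h1 : x⁻¹ * y ∈ N k := by
    rw [← QuotientGroup.eq]; exact hxy
  refine hk (x⁻¹ * y) ?_ h1
  rw [Finset.mem_filter, Finset.mem_image]
  exact ⟨⟨(x, y), Finset.mem_product.2 ⟨hx, hy⟩, rfl⟩, fun h => hne (inv_mul_eq_one.1 h)⟩

theorem quot_solvable (hder : ∀ n, derivedSeries G n ≤ N n) (k : ℕ) :
    Group.IsSolvable (G ⧸ N k) := by
  rw [Group.isSolvable_def]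
  refine ⟨k, ?_⟩
  rw [← map_derivedSeries_eq (f := QuotientGroup.mk' (N k)) (QuotientGroup.mk'_surjective _) k,
    eq_bot_iff, Subgroup.map_le_iff_le_comap]
  intro x hx
  exact Subgroup.mem_bot.2 ((QuotientGroup.eq_one_iff x).2 (hder k hx))

/-- Detection by soluble quotients. -/
theorem detect_soluble (hanti : Antitone N) (hsep : ∀ h : G, h ≠ 1 → ∃ k, h ∉ N k)
    (hder : ∀ n, derivedSeries G n ≤ N n) (γ : Gam g) (hγ : γ ≠ 1) :
    ∃ (F : Type) (_ : Group F) (_ : Group.IsSolvable F) (f : Gam g →* F), f γ ≠ 1 := by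
  classical
  by_cases hq : γ.1.q = 1
  · have hv : γ.1.v ≠ 0 := fun h => hγ (Subtype.ext (Semi.ext h hq))
    obtain ⟨k, hk⟩ := exists_sep N hanti hsep (γ.1.v.support.image Prod.snd)
    have := quot_solvable N hder k
    refine ⟨Semi (G ⧸ N k) (FV (G ⧸ N k)), inferInstance, inferInstance,
      (semiMap (QuotientGroup.mk' (N k))).comp (Gam g).subtype, ?_⟩
    intro h
    have h1 : FVmap (QuotientGroup.mk' (N k)) γ.1.v = 0 := congrArg Semi.v h
    obtain ⟨p, hp⟩ := Finsupp.support_nonempty_iff.2 hv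
    have h2 : (FVmap (QuotientGroup.mk' (N k)) γ.1.v) (p.1, QuotientGroup.mk' (N k) p.2) =
        γ.1.v p := by
      refine Finsupp.mapDomain_apply' (S := (γ.1.v.support : Set (Option ℕ × G))) γ.1.v
        subset_rfl ?_ hp
      intro x hx y hy hxy
      have e1 : x.1 = y.1 := (Prod.ext_iff.1 hxy).1
      have e2 : QuotientGroup.mk' (N k) x.2 = QuotientGroup.mk' (N k) y.2 := (Prod.ext_iff.1 hxy).2
      have e3 : x.2 = y.2 := hk (by
        rw [Finset.mem_coe, Finset.mem_image]; exact ⟨x, hx, rfl⟩) (by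
        rw [Finset.mem_coe, Finset.mem_image]; exact ⟨y, hy, rfl⟩) e2
      exact Prod.ext e1 e3
    rw [h1] at h2
    exact (Finsupp.mem_support_iff.1 hp) h2.symm
  · obtain ⟨k, hk⟩ := hsep _ hq
    have := quot_solvable N hder k
    refine ⟨G ⧸ N k, inferInstance, inferInstance,
      (QuotientGroup.mk' (N k)).comp (Semi.proj.comp (Gam g).subtype), ?_⟩
    intro h
    exact hk ((QuotientGroup.eq_one_iff _).1 h)

/-- Detection by finite quotients. -/
theorem detect_finite (hanti : Antitone N) (hsep : ∀ h : G, h ≠ 1 → ∃ k, h ∉ N k)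
    (hder : ∀ n, derivedSeries G n ≤ N n) (hfin : ∀ k, Finite (G ⧸ N k))
    (hg : ∀ n, g n ∈ derivedSeries G n) {T : Type} [Group T] [Finite T] (φ : G →* T) (x : T)
    (hx : x ≠ 1) (hφ : ∀ n, φ (g n) = x) (γ : Gam g) (hγ : γ ≠ 1) :
    ∃ (F : Type) (_ : Group F) (_ : Finite F) (f : Gam g →* F), f γ ≠ 1 := by
  classical
  by_cases hq : γ.1.q = 1
  · have hv : γ.1.v ≠ 0 := fun h => hγ (Subtype.ext (Semi.ext h hq))
    obtain ⟨k, hk⟩ := exists_sep N hanti hsep (γ.1.v.support.image Prod.snd)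
    have := hfin k
    let θ : G →* (G ⧸ N k) × T := (QuotientGroup.mk' (N k)).prod φ
    obtain ⟨p, hp⟩ := Finsupp.support_nonempty_iff.2 hv
    have hinj : ∀ p' ∈ γ.1.v.support, QuotientGroup.mk' (N k) p'.2 = QuotientGroup.mk' (N k) p.2 →
        p'.2 = p.2 := by
      intro p' hp' e
      exact hk (by rw [Finset.mem_coe, Finset.mem_image]; exact ⟨p', hp', rfl⟩)
        (by rw [Finset.mem_coe, Finset.mem_image]; exact ⟨p, hp, rfl⟩) e
    -- the value of a sum with a delta function
    have hsum : ∀ (w : Option ℕ → (G ⧸ N k) × T → ℚ),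
        (∀ p' ∈ γ.1.v.support, p' ≠ p → w p'.1 ((θ p'.2)⁻¹ * θ p.2) = 0) →
        psi θ w γ.1.v (θ p.2) = γ.1.v p * w p.1 1 := by
      intro w hw
      unfold psi
      rw [Finsupp.sum, Finset.sum_eq_single p]
      · simp
      · intro p' hp' hne
        rw [hw p' hp' hne, mul_zero]
      · intro h; exact absurd hp h
    by_cases hcase : ∀ p' ∈ γ.1.v.support, p'.1 = none
    · -- only multiples of `a`
      let w : Option ℕ → (G ⧸ N k) × T → ℚ := fun i ω =>
        match i with
        | none => (if ω = (1, x) then 1 else 0) - (if ω = 1 then 1 else 0)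
        | some n => if n < k then 0 else (if ω = 1 then 1 else 0)
      refine detect g θ w (k.factorial : ℚ) (by exact_mod_cast k.factorial_ne_zero) ?_ γ.1.v γ.2
        (θ p.2) ?_ γ rfl
      · refine int_of_gens g θ w _ ?_ ?_
        · intro n ω
          simp only [w]
          split_ifs
          · exact ⟨0, by simp⟩
          · exact ⟨k.factorial, by simp⟩
          · exact ⟨0, by simp⟩
        · intro n ω
          by_cases hn : n < k
          · have hdvd : n.factorial ∣ k.factorial := Nat.factorial_dvd_factorial hn.le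
            obtain ⟨m, hm⟩ := hdvd
            have hn0 : (n.factorial : ℚ) ≠ 0 := by exact_mod_cast n.factorial_ne_zero
            have hkm : (k.factorial : ℚ) * (n.factorial : ℚ)⁻¹ = m := by
              rw [hm]; push_cast; field_simp
            simp only [w, hn, if_true, sub_self, sub_zero]
            rw [← mul_assoc, hkm]
            split_ifs
            · exact ⟨0, by simp⟩
            · exact ⟨m, by simp⟩
            · exact ⟨-m, by simp⟩
            · exact ⟨0, by simp⟩
          · refine ⟨0, ?_⟩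
            have hθ : θ (g n) = (1, x) := by
              refine Prod.ext ?_ (hφ n)
              show QuotientGroup.mk' (N k) (g n) = 1
              exact (QuotientGroup.eq_one_iff _).2 (hanti (not_lt.1 hn) (hder n (hg n)))
            have h1 : ((1, x) : (G ⧸ N k) × T)⁻¹ * ω = 1 ↔ ω = (1, x) := by
              rw [inv_mul_eq_one]; exact eq_comm
            simp only [w, hn, if_false, hθ, h1]
            simp
      · rw [hsum w]
        · rw [hcase p hp]
          have h1 : ¬ ((1 : (G ⧸ N k) × T) = (1, x)) := by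
            intro h
            exact hx (congrArg Prod.snd h).symm
          simp only [w, h1, if_false, if_true]
          have := Finsupp.mem_support_iff.1 hp
          simpa using this
        · intro p' hp' hne
          have hp'2 : p'.2 ≠ p.2 := by
            intro e
            exact hne (Prod.ext ((hcase p' hp').trans (hcase p hp).symm) e)
          have h2 : QuotientGroup.mk' (N k) p'.2 ≠ QuotientGroup.mk' (N k) p.2 :=
            fun e => hp'2 (hinj p' hp' e)
          have h3 : ((θ p'.2)⁻¹ * θ p.2).1 ≠ 1 := by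
            intro e
            apply h2
            have : (QuotientGroup.mk' (N k) p'.2)⁻¹ * QuotientGroup.mk' (N k) p.2 = 1 := e
            exact inv_mul_eq_one.1 this
          have h4 : (θ p'.2)⁻¹ * θ p.2 ≠ 1 := fun e => h3 (congrArg Prod.fst e)
          have h5 : (θ p'.2)⁻¹ * θ p.2 ≠ (1, x) := fun e => h3 (congrArg Prod.fst e)
          rw [hcase p' hp']
          simp only [w, h4, h5, if_false, sub_self]
    · -- some coordinate `c n` is involved
      push Not at hcase
      obtain ⟨p, hp, hpn⟩ := hcase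
      obtain ⟨n0, hn0⟩ := Option.ne_none_iff_exists'.1 hpn
      have hinj : ∀ p' ∈ γ.1.v.support,
          QuotientGroup.mk' (N k) p'.2 = QuotientGroup.mk' (N k) p.2 → p'.2 = p.2 := by
        intro p' hp' e
        exact hk (by rw [Finset.mem_coe, Finset.mem_image]; exact ⟨p', hp', rfl⟩)
          (by rw [Finset.mem_coe, Finset.mem_image]; exact ⟨p, hp, rfl⟩) e
      let w : Option ℕ → (G ⧸ N k) × T → ℚ := fun i ω =>
        if i = some n0 then (if ω = 1 then 1 else 0) else 0
      have hwnone : ∀ ω, w none ω = 0 := fun ω => by simp [w]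
      refine detect g θ w (n0.factorial : ℚ) (by exact_mod_cast n0.factorial_ne_zero) ?_ γ.1.v γ.2
        (θ p.2) ?_ γ rfl
      · refine int_of_gens g θ w _ ?_ ?_
        · intro n ω
          simp only [w]
          split_ifs
          · exact ⟨n0.factorial, by simp⟩
          · exact ⟨0, by simp⟩
          · exact ⟨0, by simp⟩
        · intro n ω
          by_cases hn : n = n0
          · subst hn
            have hn0 : (n.factorial : ℚ) ≠ 0 := by exact_mod_cast n.factorial_ne_zero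
            rw [← mul_assoc, mul_inv_cancel₀ hn0, one_mul, hwnone]
            simp only [w, if_true]
            split_ifs
            · exact ⟨0, by simp⟩
            · exact ⟨-1, by simp⟩
            · exact ⟨1, by simp⟩
            · exact ⟨0, by simp⟩
          · refine ⟨0, ?_⟩
            rw [hwnone]
            simp [w, hn]
      · have hval : psi θ w γ.1.v (θ p.2) = γ.1.v p * w p.1 1 := by
          unfold psi
          rw [Finsupp.sum, Finset.sum_eq_single p]
          · simp
          · intro p' hp' hne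
            by_cases h1 : p'.1 = some n0
            · have hp'2 : p'.2 ≠ p.2 := fun e => hne (Prod.ext (h1.trans hn0.symm) e)
              have h2 : QuotientGroup.mk' (N k) p'.2 ≠ QuotientGroup.mk' (N k) p.2 :=
                fun e => hp'2 (hinj p' hp' e)
              have h4 : (θ p'.2)⁻¹ * θ p.2 ≠ 1 := by
                intro e
                apply h2
                have : (QuotientGroup.mk' (N k) p'.2)⁻¹ * QuotientGroup.mk' (N k) p.2 = 1 :=
                  congrArg Prod.fst e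
                exact inv_mul_eq_one.1 this
              simp [w, h4]
            · simp [w, h1]
          · intro h; exact absurd hp h
        rw [hval, hn0]
        simp only [w, if_true, mul_one]
        exact Finsupp.mem_support_iff.1 hp
  · obtain ⟨k, hk⟩ := hsep _ hq
    have := hfin k
    refine ⟨G ⧸ N k, inferInstance, inferInstance,
      (QuotientGroup.mk' (N k)).comp (Semi.proj.comp (Gam g).subtype), ?_⟩
    intro h
    exact hk ((QuotientGroup.eq_one_iff _).1 h)

end main

/-! ### The principal congruence subgroup of level three -/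

/-- `SL(2, ℤ)`. -/
abbrev SL2Z := Matrix.SpecialLinearGroup (Fin 2) ℤ

/-- Reduction modulo `m`. -/
def red (m : ℕ) : SL2Z →* Matrix.SpecialLinearGroup (Fin 2) (ZMod m) :=
  Matrix.SpecialLinearGroup.map (Int.castRingHom (ZMod m))

theorem red_eq_iff (m : ℕ) (a b : SL2Z) :
    red m a = red m b ↔ ∀ i j, (m : ℤ) ∣ a.1 i j - b.1 i j := by
  constructor
  · intro h i j
    have h1 : ((a.1 i j : ℤ) : ZMod m) = ((b.1 i j : ℤ) : ZMod m) := by
      have := congrArg (fun z : Matrix.SpecialLinearGroup (Fin 2) (ZMod m) => z.1 i j) h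
      simpa [red] using this
    rw [← ZMod.intCast_zmod_eq_zero_iff_dvd]
    push_cast
    rw [h1, sub_self]
  · intro h
    apply Subtype.ext
    ext i j
    have h1 := (ZMod.intCast_zmod_eq_zero_iff_dvd _ _).2 (h i j)
    push_cast at h1
    simpa [red] using sub_eq_zero.1 h1

theorem red_comm (m : ℕ) (a b : SL2Z) (ha : a ∈ (red m).ker) (hb : b ∈ (red m).ker) :
    ⁅a, b⁆ ∈ (red (m * m)).ker := by
  rw [MonoidHom.mem_ker, ← map_one (red m), red_eq_iff] at ha hb
  rw [MonoidHom.mem_ker, map_commutatorElement, commutatorElement_eq_one_iff_mul_comm,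
    ← map_mul, ← map_mul, red_eq_iff]
  intro i j
  have e : (a * b).1 i j - (b * a).1 i j =
      ∑ k, (a.1 i k - (1 : SL2Z).1 i k) * (b.1 k j - (1 : SL2Z).1 k j) -
      ∑ k, (b.1 i k - (1 : SL2Z).1 i k) * (a.1 k j - (1 : SL2Z).1 k j) := by
    have h1 : (a * b).1 - (b * a).1 =
        (a.1 - (1 : SL2Z).1) * (b.1 - (1 : SL2Z).1) -
        (b.1 - (1 : SL2Z).1) * (a.1 - (1 : SL2Z).1) := by
      simp only [Matrix.SpecialLinearGroup.coe_mul, Matrix.SpecialLinearGroup.coe_one]
      noncomm_ring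
    have h2 := congrFun (congrFun h1 i) j
    simpa [Matrix.mul_apply] using h2
  rw [e]
  push_cast
  refine dvd_sub (Finset.dvd_sum fun k _ => ?_) (Finset.dvd_sum fun k _ => ?_)
  · exact mul_dvd_mul (ha i k) (hb k j)
  · exact mul_dvd_mul (hb i k) (ha k j)

/-- The principal congruence subgroup of level three. -/
def G3 : Subgroup SL2Z := (red 3).ker

/-- The filtration. -/
def Nk (k : ℕ) : Subgroup G3 := ((red (3 ^ 2 ^ k)).comp G3.subtype).ker

instance (k : ℕ) : (Nk k).Normal := MonoidHom.normal_ker _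

theorem mem_Nk (k : ℕ) (a : G3) : a ∈ Nk k ↔ red (3 ^ 2 ^ k) a.1 = 1 := Iff.rfl

theorem Nk_finite (k : ℕ) : Finite (G3 ⧸ Nk k) := by
  have : NeZero (3 ^ 2 ^ k) := ⟨by positivity⟩
  exact finite_quot ((red (3 ^ 2 ^ k)).comp G3.subtype)

theorem Nk_antitone : Antitone Nk := by
  refine antitone_nat_of_succ_le fun k a ha => ?_
  rw [mem_Nk, ← map_one (red _), red_eq_iff] at ha ⊢
  intro i j
  refine dvd_trans ?_ (ha i j)
  rw [pow_succ 2 k, pow_mul]
  push_cast
  exact dvd_pow_self _ (by norm_num)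

theorem Nk_sep (a : G3) (ha : a ≠ 1) : ∃ k, a ∉ Nk k := by
  have h1 : ∃ i j, a.1.1 i j - (1 : SL2Z).1 i j ≠ 0 := by
    by_contra h
    push Not at h
    apply ha
    apply Subtype.ext
    apply Subtype.ext
    ext i j
    exact sub_eq_zero.1 (h i j)
  obtain ⟨i, j, hij⟩ := h1
  set d := a.1.1 i j - (1 : SL2Z).1 i j with hd
  refine ⟨d.natAbs, ?_⟩
  intro hmem
  rw [mem_Nk, ← map_one (red _), red_eq_iff] at hmem
  have h2 := Int.natAbs_dvd_natAbs.2 (hmem i j)
  rw [← hd] at h2
  have h3 : ((3 ^ 2 ^ d.natAbs : ℕ) : ℤ).natAbs = 3 ^ 2 ^ d.natAbs := rfl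
  rw [h3] at h2
  have h4 := Nat.le_of_dvd (Int.natAbs_pos.2 hij) h2
  have h5 : d.natAbs < 2 ^ d.natAbs := Nat.lt_two_pow_self
  have h6 : 2 ^ d.natAbs < 3 ^ 2 ^ d.natAbs := Nat.lt_pow_self (by norm_num)
  omega

theorem Nk_der (n : ℕ) : derivedSeries G3 n ≤ Nk n := by
  induction n with
  | zero =>
    intro a _
    rw [mem_Nk]
    exact a.2
  | succ n ih =>
    rw [derivedSeries_succ, Subgroup.commutator_le]
    intro a ha b hb
    rw [mem_Nk]
    have h := red_comm (3 ^ 2 ^ n) a.1 b.1 (ih ha) (ih hb)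
    have e : 3 ^ 2 ^ (n + 1) = 3 ^ 2 ^ n * 3 ^ 2 ^ n := by
      rw [pow_succ 2 n, pow_mul, sq]
    rw [e]
    exact h

/-- The three matrices. -/
def X0 : SL2Z := ⟨!![-5, -3; -3, -2], by decide⟩
@[inherit_doc X0]
def Y0 : SL2Z := ⟨!![1, 0; -3, 1], by decide⟩
@[inherit_doc X0]
def Z0 : SL2Z := ⟨!![1, -3; 0, 1], by decide⟩

@[inherit_doc X0]
def X1 : G3 := ⟨X0, by
  rw [G3, MonoidHom.mem_ker, ← map_one (red 3), red_eq_iff]; decide⟩
@[inherit_doc X0]
def Y1 : G3 := ⟨Y0, by
  rw [G3, MonoidHom.mem_ker, ← map_one (red 3), red_eq_iff]; decide⟩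
@[inherit_doc X0]
def Z1 : G3 := ⟨Z0, by
  rw [G3, MonoidHom.mem_ker, ← map_one (red 3), red_eq_iff]; decide⟩

/-- The elements of the derived subgroups. -/
def gn : ℕ → G3
  | 0 => X1
  | n + 1 => Z1 * ⁅gn n, Y1 * gn n * Y1⁻¹⁆ * Z1⁻¹

theorem gn_mem : ∀ n, gn n ∈ derivedSeries G3 n
  | 0 => Subgroup.mem_top _
  | n + 1 => by
    refine (derivedSeries_normal G3 (n + 1)).conj_mem _ ?_ _
    exact Subgroup.commutator_mem_commutator (gn_mem n)
      ((derivedSeries_normal G3 n).conj_mem _ (gn_mem n) _)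

/-- Reduction modulo five. -/
def phi : G3 →* Matrix.SpecialLinearGroup (Fin 2) (ZMod 5) := (red 5).comp G3.subtype

theorem phi_key : phi Z1 * ⁅phi X1, phi Y1 * phi X1 * (phi Y1)⁻¹⁆ * (phi Z1)⁻¹ = phi X1 := by
  decide

theorem phi_ne : phi X1 ≠ 1 := by decide

theorem phi_gn : ∀ n, phi (gn n) = phi X1
  | 0 => rfl
  | n + 1 => by
    show phi (Z1 * ⁅gn n, Y1 * gn n * Y1⁻¹⁆ * Z1⁻¹) = phi X1
    rw [map_mul, map_mul, map_inv, map_commutatorElement, map_mul, map_mul, map_inv, phi_gn n,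
      phi_key]

/-- There is a group that is residually finite and residually soluble, but not
residually finite-soluble. -/
theorem result :
    ∃ (Γ : Type) (_ : Group Γ),
      (∀ g : Γ, g ≠ 1 → ∃ (N : Subgroup Γ) (_ : N.Normal), g ∉ N ∧ Finite (Γ ⧸ N)) ∧
      (∀ g : Γ, g ≠ 1 → ∃ (N : Subgroup Γ) (_ : N.Normal), g ∉ N ∧ Group.IsSolvable (Γ ⧸ N)) ∧
      ¬ ∀ g : Γ, g ≠ 1 →
        ∃ (N : Subgroup Γ) (_ : N.Normal), g ∉ N ∧ Finite (Γ ⧸ N) ∧ Group.IsSolvable (Γ ⧸ N) := by
  refine ⟨Gam gn, inferInstance, ?_, ?_, ?_⟩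
  · intro γ hγ
    obtain ⟨F, _, _, f, hf⟩ := detect_finite gn Nk Nk_antitone Nk_sep Nk_der Nk_finite gn_mem phi
      (phi X1) phi_ne phi_gn γ hγ
    exact ⟨f.ker, MonoidHom.normal_ker f, hf, finite_quot f⟩
  · intro γ hγ
    obtain ⟨F, _, _, f, hf⟩ := detect_soluble gn Nk Nk_antitone Nk_sep Nk_der γ hγ
    exact ⟨f.ker, MonoidHom.normal_ker f, hf, solvable_quot f⟩
  · intro h
    obtain ⟨N, hN, hz, hfin, hsol⟩ := h (z gn) (z_ne_one gn)
    exact hz (z_mem gn gn_mem N)

end Pool.Agent.Results.MP_92b5af_al.FiniteAndSoluble
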